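import Pool.Agent.Helper29.NU.Grpa

/-! Möbius disjointness for endomorphisms of C*-algebras generated by unitaries whose orbits are
polynomial sequences in nilpotent groups of unitaries, of any class. -/

set_option autoImplicit false

open Filter Topology

namespace Pool.Agent.Results.MP_7a8f48_an.NilpotentUnitaries

/-- Möbius disjointness of a unital `*`-endomorphism `α`: for each `x`, the averages of
`μ(n) ρ(αⁿ x)` tend to zero for each bounded functional `ρ`, and the averages of `μ(n) π(αⁿ x) ξ`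
tend to zero in norm for each representation `π` on a Hilbert space and each vector `ξ`. -/
def MobiusDisjoint {U : Type} [CStarAlgebra U] (α : U →⋆ₐ[ℂ] U) : Prop :=
  ∀ x : U,
    (∀ ρ : U →L[ℂ] ℂ, Tendsto (fun N : ℕ => (1 / (N : ℂ)) *
      ∑ n ∈ Finset.Icc 1 N, ((ArithmeticFunction.moebius n : ℤ) : ℂ) * ρ ((α^[n]) x))
      atTop (𝓝 0)) ∧
    ∀ (K : Type) [NormedAddCommGroup K] [InnerProductSpace ℂ K] [CompleteSpace K]
      (π : U →⋆ₐ[ℂ] (K →L[ℂ] K)) (ξ : K), Tendsto (fun N : ℕ => (1 / (N : ℂ)) •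
      ∑ n ∈ Finset.Icc 1 N, ((ArithmeticFunction.moebius n : ℤ) : ℂ) • π ((α^[n]) x) ξ)
      atTop (𝓝 0)

/-- `w` is an eigenvector of `β` with an eigenvalue of modulus one -/
def Eigenvector {B : Type} [CStarAlgebra B] (β : B →⋆ₐ[ℂ] B) (w : B) : Prop :=
  ∃ l : ℂ, ‖l‖ = 1 ∧ β w = l • w

/-- the products `v * y * w` of the elements `y` of `Y` with eigenvectors `v`, `w` of `β` span a
dense subspace of `B` -/
def Generates {B : Type} [CStarAlgebra B] (β : B →⋆ₐ[ℂ] B) (Y : Set B) : Prop :=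
  (Submodule.span ℂ {x : B | ∃ y ∈ Y, ∃ v w, Eigenvector β v ∧ Eigenvector β w ∧
    x = v * y * w}).topologicalClosure = ⊤

/-- `α` is Möbius disjoint, together with each system `(B, β)` which is generated over eigenvectors
of `β` by an equivariant image of `(A, α)`, and together with each system `(W, γ)` which embeds in
such a `(B, β)`. With `B = A` this contains the restrictions of `α` to invariant C*-subalgebras. -/
def AllDisjoint {A : Type} [CStarAlgebra A] (α : A →⋆ₐ[ℂ] A) : Prop :=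
  MobiusDisjoint α ∧
  ∀ (B : Type) [CStarAlgebra B] (β : B →⋆ₐ[ℂ] B) (ι : A →⋆ₐ[ℂ] B),
    (∀ a, β (ι a) = ι (α a)) → Generates β (Set.range ι) →
    MobiusDisjoint β ∧
    ∀ (W : Type) [CStarAlgebra W] (γ : W →⋆ₐ[ℂ] W) (κ : W →⋆ₐ[ℂ] B), Function.Injective κ →
      (∀ w, κ (γ w) = β (κ w)) → MobiusDisjoint γ

/-- The unitaries `u` such that for some `m > 0` some iterate of `x ↦ x⋆ αᵐ(x)` maps `u` to `1`, and
such that the unitaries `α^{mn}(u⋆ αᵐ(u))`, `n ≥ 0`, lie in a nilpotent group of unitaries. The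
nilpotency class is arbitrary. -/
def NilpotentOrbit {A : Type} [CStarAlgebra A] (α : A →⋆ₐ[ℂ] A) : Set A :=
  {u | u ∈ unitary A ∧ ∃ m : ℕ, 0 < m ∧
    (∃ k : ℕ, (fun x : A => star x * (α^[m]) x)^[k] u = 1) ∧
    ∃ V : Subgroup (unitary A), Group.IsNilpotent V ∧
      ∀ n : ℕ, ∃ v ∈ V, (v : A) = (α^[m * n]) (star u * (α^[m]) u)}

/-- `z` is a central unitary -/
def CentralUnitary {A : Type} [CStarAlgebra A] (z : A) : Prop :=
  z ∈ unitary A ∧ ∀ a : A, z * a = a * z

/-- the `u g` are unitaries, and the identities `u (g * h) = u g * u h` and `α (u g) = u (σ g)` hold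
up to central unitaries which are fixed by `α` -/
structure Covers {A G : Type} [CStarAlgebra A] [Group G] (u : G → A) (σ : G →* G)
    (α : A →⋆ₐ[ℂ] A) : Prop where
  unit : ∀ g, u g ∈ unitary A
  mul : ∀ g h, ∃ z, CentralUnitary z ∧ α z = z ∧ u (g * h) = z * (u g * u h)
  cov : ∀ g, ∃ z, CentralUnitary z ∧ α z = z ∧ α (u g) = z * u (σ g)

/-- `σ` is tame at `g`: for some `m > 0` and `k` the `k`-th iterate of the map `h ↦ h⁻¹ σᵐ(h)` maps
`g` to `1`, and the elements `σ^{mn}(g⁻¹ σᵐ(g))`, `n ≥ 0`, generate a nilpotent group -/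
def TameAt {G : Type} [Group G] (σ : G →* G) (g : G) : Prop :=
  ∃ m : ℕ, 0 < m ∧ (∃ k : ℕ, (fun h : G => h⁻¹ * (σ^[m]) h)^[k] g = 1) ∧
    Group.IsNilpotent
      (Subgroup.closure (Set.range fun n : ℕ => (σ^[m * n]) (g⁻¹ * (σ^[m]) g)))

/-- for some `m > 0` the map `h ↦ h⁻¹ σᵐ(h)` is nilpotent at each point of the subgroup which is
generated by the `σ^{mn}(g)`, `n ≥ 0` -/
def UnipotentAt {G : Type} [Group G] (σ : G →* G) (g : G) : Prop :=
  ∃ m : ℕ, 0 < m ∧ ∀ x ∈ Subgroup.closure (Set.range fun n : ℕ => (σ^[m * n]) g),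
    ∃ k : ℕ, (fun h : G => h⁻¹ * (σ^[m]) h)^[k] x = 1

/-- the subgroups of finitely generated subgroups are finitely generated -/
def LocallyNoetherian (G : Type) [Group G] : Prop :=
  ∀ K : Subgroup G, K.FG → ∀ K' ≤ K, K'.FG

open Pool.Agent.TH261.AB (Good)
open Pool.Agent.TH261.NP (Eig)
open Pool.Agent.Helper29.NU

theorem mobiusDisjoint_of {U : Type} [CStarAlgebra U] {α : U →⋆ₐ[ℂ] U} (h : ∀ x, Good α x) :
    MobiusDisjoint α := fun x => ⟨(h x).fun, fun K _ _ _ π ξ => (h x).rep K π ξ⟩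

theorem main {A : Type} [CStarAlgebra A] (α : A →⋆ₐ[ℂ] A)
    (hgen : Generates α (NilpotentOrbit α)) : AllDisjoint α := by
  have hg : ∀ (B : Type) [CStarAlgebra B] (β : B →⋆ₐ[ℂ] B) (ι : A →⋆ₐ[ℂ] B),
      (∀ a, β (ι a) = ι (α a)) → Generates β (Set.range ι) → ∀ x, Good β x := fun B _ β ι hι h =>
    good_all' hgen β ι hι h
  refine ⟨?_, fun B _ β ι hι h => ?_⟩
  · refine mobiusDisjoint_of (hg A α (StarAlgHom.id ℂ A) (fun a => rfl) ?_)
    rw [Generates, eq_top_iff]
    intro a _
    exact Submodule.le_topologicalClosure _ (Submodule.subset_span ⟨a, ⟨a, rfl⟩, 1, 1,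
      Eig.one α, Eig.one α, by rw [one_mul, mul_one]⟩)
  · have h1 := hg B β ι hι h
    exact ⟨mobiusDisjoint_of h1, fun W _ γ κ hκ hγ => mobiusDisjoint_of (Good.embed h1 γ κ hκ hγ)⟩

theorem Generates.mono {A : Type} [CStarAlgebra A] {α : A →⋆ₐ[ℂ] A} {X Y : Set A} (hXY : X ⊆ Y)
    (h : Generates α X) : Generates α Y := by
  rw [Generates, eq_top_iff, ← h]
  refine Submodule.topologicalClosure_mono (Submodule.span_mono ?_)
  rintro x ⟨y, hy, h⟩
  exact ⟨y, hXY hy, h⟩

theorem tame {A G : Type} [CStarAlgebra A] [Group G] (u : G → A) (σ : G →* G) (α : A →⋆ₐ[ℂ] A)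
    (hα : Covers u σ α) (hgen : Generates α (u '' {g | TameAt σ g})) : AllDisjoint α := by
  refine main α (hgen.mono ?_)
  rintro _ ⟨g, ⟨m, hm, hk, hV⟩, rfl⟩
  exact nilU_of_tame hα.unit hα.mul hα.cov hm hk
    ⟨_, hV, fun n => Subgroup.subset_closure ⟨n, rfl⟩⟩

theorem pow_ap {G : Type} [Group G] (σ : MulAut G) (m : ℕ) (x : G) : (σ ^ m) x = (σ^[m]) x := by
  induction m generalizing x with
  | zero => rfl
  | succ m ih => rw [pow_succ, MulAut.mul_apply, ih, Function.iterate_succ_apply]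

theorem unip {A G : Type} [CStarAlgebra A] [Group G] (hG : LocallyNoetherian G) (u : G → A)
    (σ : MulAut G) (α : A →⋆ₐ[ℂ] A) (hα : Covers u σ.toMonoidHom α)
    (hgen : Generates α (u '' {g | UnipotentAt σ.toMonoidHom g})) : AllDisjoint α := by
  refine tame u σ.toMonoidHom α hα (hgen.mono (Set.image_mono ?_))
  rintro g ⟨m, hm, hg⟩
  have hit : ∀ (n : ℕ) (x : G), ((σ ^ m : MulAut G)^[n]) x = (σ.toMonoidHom^[m * n]) x := by
    intro n
    induction n with
    | zero => intro x; rfl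
    | succ n ih =>
      intro x
      rw [Function.iterate_succ_apply, ih, pow_ap, mul_add, mul_one, Function.iterate_add_apply]
      rfl
  have hD : (fun h : G => h⁻¹ * (σ.toMonoidHom^[m]) h) = Dg (σ ^ m) := by
    funext h
    rw [Dg, pow_ap]
    rfl
  have hcl : (Set.range fun n : ℕ => (σ.toMonoidHom^[m * n]) g) =
      Set.range fun n : ℕ => ((σ ^ m : MulAut G)^[n]) g := by
    congr 1
    funext n
    rw [hit]
  have h1 : ∀ x ∈ Subgroup.closure (Set.range fun n : ℕ => ((σ ^ m : MulAut G)^[n]) g),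
      ∃ k : ℕ, (Dg (σ ^ m))^[k] x = 1 := by
    intro x hx
    rw [← hcl] at hx
    obtain ⟨k, hk⟩ := hg x hx
    exact ⟨k, by rw [← hD]; exact hk⟩
  obtain ⟨V, hVn, hV⟩ := exists_nil_local (σ ^ m) hG g h1
  refine ⟨m, hm, hg g (Subgroup.subset_closure ⟨0, rfl⟩), ?_⟩
  have h2 : Subgroup.closure (Set.range fun n : ℕ =>
      (σ.toMonoidHom^[m * n]) (g⁻¹ * (σ.toMonoidHom^[m]) g)) ≤ V := by
    rw [Subgroup.closure_le]
    rintro _ ⟨n, rfl⟩
    have h3 := hV n
    rw [hit, ← hD] at h3
    exact h3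
  obtain ⟨c, hc⟩ := (Subgroup.isNilpotent_iff_lowerCentralSeries V).1 hVn
  exact (Subgroup.isNilpotent_iff_lowerCentralSeries _).2
    ⟨c, eq_bot_iff.2 ((Subgroup.lowerCentralSeries_mono c h2).trans hc.le)⟩

/-- **Möbius disjointness for endomorphisms generated by unitaries with nilpotent orbits.**

1. If `A` is generated over eigenvectors of `α` by unitaries whose orbits are, along an arithmetic
progression, polynomial sequences in nilpotent groups of unitaries, then `α` is Möbius disjoint, and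
so are all systems generated by `α` over eigenvectors, and their subsystems.

2. This applies to the algebras generated by projective unitary representations of groups `G`
(with cocycles in the central unitaries fixed by `α`) and to the endomorphisms which cover an
endomorphism of `G`, if `A` is generated by the `u g` with `g` tame.

3. If `G` is locally Noetherian, for example locally polycyclic-by-finite, and `α` covers an
automorphism `σ`, then it is enough that `A` is generated by the `u g` with `σ` unipotent at `g`.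
The nilpotency is automatic there. -/
theorem result :
    (∀ (A : Type) [CStarAlgebra A] (α : A →⋆ₐ[ℂ] A), Generates α (NilpotentOrbit α) →
      AllDisjoint α) ∧
    (∀ (A G : Type) [CStarAlgebra A] [Group G] (u : G → A) (σ : G →* G) (α : A →⋆ₐ[ℂ] A),
      Covers u σ α → Generates α (u '' {g | TameAt σ g}) → AllDisjoint α) ∧
    (∀ (A G : Type) [CStarAlgebra A] [Group G] (u : G → A) (σ : MulAut G) (α : A →⋆ₐ[ℂ] A),
      LocallyNoetherian G → Covers u σ.toMonoidHom α →
      Generates α (u '' {g | UnipotentAt σ.toMonoidHom g}) → AllDisjoint α) :=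
  ⟨fun _ _ α h => main α h, fun _ _ _ _ u σ α h h' => tame u σ α h h',
    fun _ _ _ _ u σ α hG h h' => unip hG u σ α h h'⟩

end Pool.Agent.Results.MP_7a8f48_an.NilpotentUnitaries
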