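import Pool.Agent.Helper29.PR.Crit

/-!
# Möbius disjointness for automorphisms of C*-algebras whose orbits have small polynomial approximation rank

If the orbit segments of length `n` of the elements of a set `D` which spans `A` densely are approximated up to `δ`
through `M_k`, where `k` is at most a constant (which may be doubly exponential in `1/δ`) times `n ^ s`, `s < 1/4`,
then the automorphism is Möbius disjoint. If they are close to subspaces of dimension at most such a constant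
times `n ^ s`, then `s < 1/2` is enough.
-/

set_option autoImplicit false

open Filter Topology Finset MeasureTheory

namespace Pool.Agent.Results.MP_7a8f48_an.PolynomialRank

universe u v

/-! ### the conclusion -/

/-- the Möbius function -/
def mu (n : ℕ) : ℤ := ArithmeticFunction.moebius n

/-- the Liouville function -/
def lam (n : ℕ) : ℤ := (-1) ^ ArithmeticFunction.cardFactors n

/-- the sum of `h m e(mθ) y m` over the `m` in `S`, where `e(t) = exp(2 π i t)` -/
noncomputable def twistedSum {X : Type v} [NormedAddCommGroup X] [NormedSpace ℂ X] (h : ℕ → ℤ) (θ : ℝ)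
    (S : Finset ℕ) (y : ℕ → X) : X :=
  ∑ m ∈ S, ((h m : ℂ) * Complex.exp (2 * Real.pi * Complex.I * m * θ)) • y m

/-- the twisted sum of `αᵐ(x)` over the `m` in `S` -/
noncomputable def orbitSum {A : Type u} [NonUnitalCStarAlgebra A] (α : A ≃⋆ₐ[ℂ] A) (h : ℕ → ℤ) (θ : ℝ)
    (S : Finset ℕ) (x : A) : A :=
  twistedSum h θ S (fun m => (α ^ m) x)

/-- the sum of `W(n)* W(n)` over `n < N`, where `W(n)` is the twisted sum over the window `(n, n + H]` -/
noncomputable def windowSquares {A : Type u} [NonUnitalCStarAlgebra A] (α : A ≃⋆ₐ[ℂ] A) (h : ℕ → ℤ) (θ : ℝ)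
    (H N : ℕ) (x : A) : A :=
  ∑ n ∈ range N, star (orbitSum α h θ (Ioc n (n + H)) x) * orbitSum α h θ (Ioc n (n + H)) x

/-- The orbit of `x` is disjoint from `h` in norm, uniformly in the twist: the long averages tend to zero in norm,
and the mean squares `∑_{n < N} W(n)* W(n)` over the windows of length `H` are small in norm. -/
def NormDisjoint {A : Type u} [NonUnitalCStarAlgebra A] (α : A ≃⋆ₐ[ℂ] A) (h : ℕ → ℤ) (x : A) : Prop :=
  ∀ ε : ℝ, 0 < ε →
    (∃ H0 : ℕ, ∀ H ≥ H0, ∀ N ≥ H, ∀ θ : ℝ,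
      ‖windowSquares α h θ H N x‖ ≤ ε * H ^ 2 * N) ∧
    ∃ N0 : ℕ, ∀ N ≥ N0, ∀ θ : ℝ, ‖orbitSum α h θ (Icc 1 N) x‖ ≤ ε * N

/-- Möbius disjointness as in the problem, for all bounded functionals -/
def MobiusDisjoint {A : Type u} [NonUnitalCStarAlgebra A] (α : A ≃⋆ₐ[ℂ] A) : Prop :=
  ∀ (x : A) (ρ : A →L[ℂ] ℂ), Tendsto (fun N : ℕ => (1 / (N : ℂ)) *
      ∑ n ∈ Icc 1 N, ((ArithmeticFunction.moebius n : ℤ) : ℂ) * ρ ((α ^ n) x)) atTop (𝓝 0)

/-- The orbits of the elements of the closed span of `D` are disjoint in norm from the Möbius and the Liouville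
function. If the span is dense, then `α` is Möbius disjoint. -/
def Conclusion {A : Type u} [NonUnitalCStarAlgebra A] (α : A ≃⋆ₐ[ℂ] A) (D : Set A) : Prop :=
  (∀ x ∈ closure (Submodule.span ℂ D : Set A), NormDisjoint α mu x ∧ NormDisjoint α lam x) ∧
  (Dense (Submodule.span ℂ D : Set A) → MobiusDisjoint α)

/-! ### the conditions -/

/-- Let `P n δ r` say that something of length `n` can be approximated up to `δ` by something of rank at most
`r`. The rank is of polynomial order less than `t` if for some `s < t`, `a < 2` and `E` it is at most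
`exp(exp(E δ^{-a})) n ^ s` for all `n ≥ 1` and `0 < δ ≤ 1`. -/
def OrderBelow (t : ℝ) (P : ℕ → ℝ → ℝ → Prop) : Prop :=
  ∃ E a s : ℝ, a < 2 ∧ s < t ∧ ∀ n : ℕ, 1 ≤ n → ∀ δ : ℝ, 0 < δ → δ ≤ 1 →
    P n δ (Real.exp (Real.exp (E * δ ^ (-a))) * (n : ℝ) ^ s)

section conditions

variable {A : Type u} [NonUnitalCStarAlgebra A]

/-- positive functionals -/
def Positive (φ : A →L[ℂ] ℂ) : Prop := ∀ a, 0 ≤ (φ (star a * a)).re ∧ (φ (star a * a)).im = 0

/-- `φ` is invariant under the automorphism `α` -/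
def Invariant (α : A ≃⋆ₐ[ℂ] A) (φ : A →L[ℂ] ℂ) : Prop := ∀ a, φ (α a) = φ a

/-- The `αʰ(x)`, `h < n`, are within `δ` of a subspace of dimension at most `r`, in mean square, for the
seminorm `φ(a* a)^{1/2}`. -/
def NearFor (α : A ≃⋆ₐ[ℂ] A) (φ : A →L[ℂ] ℂ) (x : A) (n : ℕ) (δ r : ℝ) : Prop :=
  ∃ W : Submodule ℂ A, FiniteDimensional ℂ W ∧ (Module.finrank ℂ W : ℝ) ≤ r ∧
    ∃ w : ℕ → A, (∀ h < n, w h ∈ W) ∧
      ∑ h ∈ range n, (φ (star ((α ^ h) x - w h) * ((α ^ h) x - w h))).re ≤ δ ^ 2 * n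

variable {B : Type v} [NonUnitalCStarAlgebra B]

/-- The `π(αʰ(x))`, `h < n`, are within `δ` of a subspace of `B` of dimension at most `r`, in mean square: there
are `w h` in it such that the differences `d h` satisfy `‖∑ (d h)* d h‖ ≤ δ² n`; it is sufficient that the
mean of `‖d h‖²` is at most `δ²`. -/
def NearIn (π : A →⋆ₙₐ[ℂ] B) (α : A ≃⋆ₐ[ℂ] A) (x : A) (n : ℕ) (δ r : ℝ) : Prop :=
  ∃ W : Submodule ℂ B, FiniteDimensional ℂ W ∧ (Module.finrank ℂ W : ℝ) ≤ r ∧
    ∃ w : ℕ → B, (∀ h < n, w h ∈ W) ∧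
      ‖∑ h ∈ range n, star (π ((α ^ h) x) - w h) * (π ((α ^ h) x) - w h)‖ ≤ δ ^ 2 * n

/-- There are linear maps `φ : A → M_k` and `ψ : M_k → B`, with `k ≤ r`, such that the mean of
`‖ψ (φ a) - π a‖²` over the `a = αʰ(x)`, `h < n`, is at most `δ²`. (If `rcp({x, α(x), …, αⁿ⁻¹(x)}, δ) ≤ r` then
this holds with completely positive contractions, and with `‖ψ (φ a) - π a‖ < δ` for all these `a`.) -/
def ThroughMatrices (π : A →⋆ₙₐ[ℂ] B) (α : A ≃⋆ₐ[ℂ] A) (x : A) (n : ℕ) (δ r : ℝ) : Prop :=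
  ∃ k : ℕ, (k : ℝ) ≤ r ∧ ∃ (φ : A →ₗ[ℂ] Matrix (Fin k) (Fin k) ℂ) (ψ : Matrix (Fin k) (Fin k) ℂ →ₗ[ℂ] B),
    ∑ h ∈ range n, ‖ψ (φ ((α ^ h) x)) - π ((α ^ h) x)‖ ^ 2 ≤ δ ^ 2 * n

end conditions

/-- The space is partitioned into at most `r` sets such that for any `x` and `y` in the same set the mean of
`|f(Tʰ(x)) - f(Tʰ(y))|²` over the `h < n` is at most `δ²`. -/
def Classes {X : Type u} [TopologicalSpace X] (T : X → X) (f : C(X, ℂ)) (n : ℕ) (δ r : ℝ) : Prop :=
  ∃ k : ℕ, (k : ℝ) ≤ r ∧ ∃ c : X → Fin k, ∀ x y, c x = c y →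
    ∑ h ∈ range n, ‖f (T^[h] x) - f (T^[h] y)‖ ^ 2 ≤ δ ^ 2 * n

/-- `f(Tᵐ(x))` is disjoint from `h`, uniformly in `x` and in the twist -/
def UniformlyDisjoint {X : Type u} [TopologicalSpace X] (T : X → X) (h : ℕ → ℤ) (f : C(X, ℂ)) : Prop :=
  ∀ ε : ℝ, 0 < ε → ∃ N0 : ℕ, ∀ N ≥ N0, ∀ (θ : ℝ) (x : X),
    ‖twistedSum h θ (Icc 1 N) (fun m => f (T^[m] x))‖ ≤ ε * N

/-! ### the statements -/

/-- (A) It is sufficient that for each invariant positive functional `φ` and each `x` in `D` the orbit of `x`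
has polynomial order less than `1/2` in the seminorm of `φ`. -/
def PartA : Prop :=
  ∀ (A : Type u) [NonUnitalCStarAlgebra A] (α : A ≃⋆ₐ[ℂ] A) (D : Set A),
    (∀ φ : A →L[ℂ] ℂ, Positive φ → Invariant α φ → ∀ x ∈ D, OrderBelow (1 / 2) (NearFor α φ x)) →
      Conclusion α D

/-- (B) Let `π` be an embedding of `A` in a C*-algebra `B` (for example in `B(H)`). It is sufficient that the
orbits of the elements of `D` have polynomial order less than `1/2` in `B`, or polynomial order less than `1/4`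
for the approximation through matrix algebras. -/
def PartB : Prop :=
  ∀ (A : Type u) [NonUnitalCStarAlgebra A] (B : Type v) [NonUnitalCStarAlgebra B] (π : A →⋆ₙₐ[ℂ] B),
    Function.Injective π → ∀ (α : A ≃⋆ₐ[ℂ] A) (D : Set A),
      (∀ x ∈ D, OrderBelow (1 / 2) (NearIn π α x) ∨ OrderBelow (1 / 4) (ThroughMatrices π α x)) →
        Conclusion α D

/-- (C) homeomorphisms of compact spaces -/
def PartC : Prop :=
  ∀ (X : Type u) [TopologicalSpace X] [CompactSpace X] (T : X ≃ₜ X) (D : Set C(X, ℂ)),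
    (∀ f ∈ D, OrderBelow (1 / 2) (Classes T f)) →
      ∀ f ∈ closure (Submodule.span ℂ D : Set C(X, ℂ)), UniformlyDisjoint T mu f ∧ UniformlyDisjoint T lam f

/-! ### proofs -/

open Pool.Agent.R296.SM
open Pool.Agent.Helper29.PR

theorem iso_mu : InvariantSpectraHalf.Iso mu := fun σ _ K hK hσ δ hδ => iso_half good_mu hK hσ δ hδ

theorem iso_lam : InvariantSpectraHalf.Iso lam := fun σ _ K hK hσ δ hδ => by
  have e : Pool.Agent.TH327.Dim.laf = fun n => (lam n : ℂ) := by
    funext n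
    unfold Pool.Agent.TH327.Dim.laf lam
    push_cast
    rfl
  have := iso_half good_la hK hσ δ hδ
  rw [e] at this
  exact this

theorem conclusion_of {A : Type u} [NonUnitalCStarAlgebra A] (α : A ≃⋆ₐ[ℂ] A) (D : Set A)
    (h : ∀ φ : A →L[ℂ] ℂ, Positive φ → Invariant α φ → ∀ x ∈ D, InvariantSpectraHalf.SmallAt α φ x) :
    Conclusion α D := by
  have hmu : ∀ n, |mu n| ≤ 1 := fun n => ArithmeticFunction.abs_moebius_le_one
  have hlam : ∀ n, |lam n| ≤ 1 := fun n => by
    unfold lam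
    rw [abs_pow, abs_neg, abs_one, one_pow]
  have h1 : ∀ x ∈ closure (Submodule.span ℂ D : Set A), NormDisjoint α mu x := fun x hx =>
    InvariantSpectraHalf.norm_of hmu iso_mu α D h x hx
  have h2 : ∀ x ∈ closure (Submodule.span ℂ D : Set A), NormDisjoint α lam x := fun x hx =>
    InvariantSpectraHalf.norm_of hlam iso_lam α D h x hx
  exact ⟨fun x hx => ⟨h1 x hx, h2 x hx⟩, fun hd => InvariantSpectraHalf.mob_of fun x => h1 x (hd x)⟩

theorem partA : PartA.{u} := by
  intro A _ α D h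
  refine conclusion_of α D fun φ h1 h2 x hx => ?_
  obtain ⟨E, a, s, ha, hs, H⟩ := h φ h1 h2 x hx
  exact smallAt_self α φ h1 h2 x E a s ha hs H

theorem nearIn_of {A : Type u} [NonUnitalCStarAlgebra A] {B : Type v} [NonUnitalCStarAlgebra B]
    (π : A →⋆ₙₐ[ℂ] B) (α : A ≃⋆ₐ[ℂ] A) (x : A) (h : OrderBelow (1 / 4) (ThroughMatrices π α x)) :
    OrderBelow (1 / 2) (NearIn π α x) := by
  obtain ⟨E, a, s, ha, hs, H⟩ := h
  refine ⟨max E 0 + Real.log 2, max a 0, 2 * s, max_lt ha (by norm_num), by linarith, fun n hn δ h0 h1 => ?_⟩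
  obtain ⟨k, hk, φ, ψ, hφ⟩ := H n hn δ h0 h1
  have hn0 : (0 : ℝ) < n := by exact_mod_cast hn
  refine ⟨LinearMap.range ψ, inferInstance, ?_, fun h => ψ (φ ((α ^ h) x)), fun h _ => ⟨_, rfl⟩, ?_⟩
  · have e1 : (Module.finrank ℂ (LinearMap.range ψ) : ℝ) ≤ (k : ℝ) ^ 2 := by
      have e2 : Module.finrank ℂ (LinearMap.range ψ) ≤ k * k := by
        refine (LinearMap.finrank_range_le ψ).trans ?_
        rw [Module.finrank_matrix]
        simp
      have e3 : (Module.finrank ℂ (LinearMap.range ψ) : ℝ) ≤ ((k * k : ℕ) : ℝ) := by exact_mod_cast e2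
      rw [pow_two]
      exact_mod_cast e3
    have e4 : (k : ℝ) ^ 2 ≤ (Real.exp (Real.exp (E * δ ^ (-a))) * (n : ℝ) ^ s) ^ 2 :=
      pow_le_pow_left₀ (Nat.cast_nonneg k) hk 2
    refine e1.trans (e4.trans ?_)
    have e5 : (Real.exp (Real.exp (E * δ ^ (-a))) * (n : ℝ) ^ s) ^ 2 =
        Real.exp (2 * Real.exp (E * δ ^ (-a))) * (n : ℝ) ^ (2 * s) := by
      rw [mul_pow, ← Real.exp_nat_mul, ← Real.rpow_natCast ((n : ℝ) ^ s), ← Real.rpow_mul hn0.le]
      push_cast
      congr 2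
      ring
    rw [e5]
    have e6 : 2 * Real.exp (E * δ ^ (-a)) ≤ Real.exp ((max E 0 + Real.log 2) * δ ^ (-max a 0)) := by
      have f1 : δ ^ (-a) ≤ δ ^ (-max a 0) := by
        apply Real.rpow_le_rpow_of_exponent_ge h0 h1
        linarith [le_max_left a 0]
      have f2 : (1 : ℝ) ≤ δ ^ (-max a 0) :=
        Real.one_le_rpow_of_pos_of_le_one_of_nonpos h0 h1 (by linarith [le_max_right a 0])
      have f3 : 0 ≤ δ ^ (-a) := by positivity
      have f4 : E * δ ^ (-a) ≤ max E 0 * δ ^ (-max a 0) := by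
        calc E * δ ^ (-a) ≤ max E 0 * δ ^ (-a) := by gcongr; exact le_max_left _ _
          _ ≤ _ := by gcongr
      have f5 : Real.log 2 ≤ Real.log 2 * δ ^ (-max a 0) :=
        le_mul_of_one_le_right (Real.log_nonneg (by norm_num)) f2
      calc 2 * Real.exp (E * δ ^ (-a)) = Real.exp (Real.log 2 + E * δ ^ (-a)) := by
            rw [Real.exp_add, Real.exp_log (by norm_num)]
        _ ≤ _ := by
            rw [Real.exp_le_exp, add_mul]
            linarith
    gcongr
  · refine (norm_sum_le _ _).trans (le_trans (le_of_eq ?_) hφ)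
    refine sum_congr rfl fun h _ => ?_
    rw [CStarRing.norm_star_mul_self, norm_sub_rev, pow_two]

theorem partB : PartB.{u, v} := by
  intro A _ B _ π hπ α D h
  refine conclusion_of α D fun φ h1 h2 x hx => ?_
  have h3 : OrderBelow (1 / 2) (NearIn π α x) := (h x hx).elim id (nearIn_of π α x)
  obtain ⟨E, a, s, ha, hs, H⟩ := h3
  exact smallAt_big α φ h1 h2 x π hπ E a s ha hs H

section spaces

open scoped ENNReal

variable {X : Type u} [TopologicalSpace X] [CompactSpace X]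

theorem bdd (f : C(X, ℂ)) : BddAbove (Set.range fun x => ‖f x‖) :=
  ⟨‖f‖, by rintro _ ⟨x, rfl⟩; exact f.norm_coe_le_norm x⟩

/-- continuous functions as bounded functions -/
noncomputable def toB (X : Type u) [TopologicalSpace X] [CompactSpace X] :
    C(X, ℂ) →⋆ₙₐ[ℂ] lp (fun _ : X => ℂ) ∞ where
  toFun f := ⟨fun x => f x, memℓp_infty (bdd f)⟩
  map_smul' c f := by ext x; rfl
  map_zero' := by ext x; rfl
  map_add' f g := by ext x; rfl
  map_mul' f g := by ext x; rfl
  map_star' f := by ext x; rfl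

theorem toB_apply (f : C(X, ℂ)) (x : X) : toB X f x = f x := rfl

theorem toB_inj : Function.Injective (toB X) := by
  intro f g h
  ext x
  rw [← toB_apply f, ← toB_apply g, h]

/-- the functions which are constant on the classes -/
noncomputable def fromC {k : ℕ} (c : X → Fin k) : (Fin k → ℂ) →ₗ[ℂ] lp (fun _ : X => ℂ) ∞ where
  toFun g := ⟨fun x => g (c x), memℓp_infty ⟨‖g‖, by rintro _ ⟨x, rfl⟩; exact norm_le_pi_norm g (c x)⟩⟩
  map_add' f g := by ext x; rfl
  map_smul' a f := by ext x; rfl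

theorem fromC_apply {k : ℕ} (c : X → Fin k) (g : Fin k → ℂ) (x : X) : fromC c g x = g (c x) := rfl

theorem pow_comp (T : X ≃ₜ X) (n : ℕ) (f : C(X, ℂ)) (x : X) :
    (((Homeomorph.compStarAlgEquiv' ℂ ℂ T) ^ n) f) x = f (T^[n] x) := by
  induction n generalizing f x with
  | zero => rfl
  | succ n ih =>
      have h1 : ((Homeomorph.compStarAlgEquiv' ℂ ℂ T) ^ (n + 1)) f =
          ((Homeomorph.compStarAlgEquiv' ℂ ℂ T) ^ n) ((Homeomorph.compStarAlgEquiv' ℂ ℂ T) f) := by
        rw [pow_succ]; rfl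
      rw [h1, ih, Function.iterate_succ_apply']
      rfl

theorem nearIn_classes (T : X ≃ₜ X) (f : C(X, ℂ)) (n : ℕ) (δ r : ℝ) (h : Classes T f n δ r) :
    NearIn (toB X) (Homeomorph.compStarAlgEquiv' ℂ ℂ T) f n δ r := by
  classical
  obtain ⟨k, hk, c, hc⟩ := h
  obtain ⟨p, hp⟩ : ∃ p : Fin k → X → X, ∀ j x, c x = j → c (p j x) = j ∧ ∀ y, c y = j → p j x = p j y := by
    refine ⟨fun j x => if h : ∃ y, c y = j then h.choose else x, fun j x hx => ?_⟩
    have h1 : ∃ y, c y = j := ⟨x, hx⟩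
    refine ⟨?_, fun y hy => ?_⟩
    · simp only [h1, dif_pos]
      exact h1.choose_spec
    · simp only [h1, dif_pos]
  obtain ⟨g, hg⟩ : ∃ g : ℕ → Fin k → ℂ, ∀ h x, g h (c x) = f (T^[h] (p (c x) x)) := by
    refine ⟨fun h j => if hj : ∃ y, c y = j then f (T^[h] (p j hj.choose)) else 0, fun h x => ?_⟩
    have h1 : ∃ y, c y = c x := ⟨x, rfl⟩
    simp only [h1, dif_pos]
    rw [(hp (c x) x rfl).2 _ h1.choose_spec]
  refine ⟨LinearMap.range (fromC c), inferInstance, ?_, fun h => fromC c (g h), fun h _ => ⟨_, rfl⟩, ?_⟩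
  · refine le_trans ?_ hk
    have h1 : Module.finrank ℂ (LinearMap.range (fromC c)) ≤ k := by
      refine (LinearMap.finrank_range_le _).trans ?_
      simp
    exact_mod_cast h1
  · refine lp.norm_le_of_forall_le (by positivity) fun x => ?_
    have h1 : (∑ h ∈ range n, star (toB X (((Homeomorph.compStarAlgEquiv' ℂ ℂ T) ^ h) f) - fromC c (g h)) *
        (toB X (((Homeomorph.compStarAlgEquiv' ℂ ℂ T) ^ h) f) - fromC c (g h))) x =
        ∑ h ∈ range n, (star (f (T^[h] x) - f (T^[h] (p (c x) x))) * (f (T^[h] x) - f (T^[h] (p (c x) x)))) := by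
      rw [lp.coeFn_sum, Finset.sum_apply]
      refine sum_congr rfl fun h _ => ?_
      rw [← hg, ← pow_comp]
      rfl
    rw [h1]
    refine (norm_sum_le _ _).trans ?_
    refine le_trans (le_of_eq ?_) (hc x (p (c x) x) (hp (c x) x rfl).1.symm)
    refine sum_congr rfl fun h _ => ?_
    rw [CStarRing.norm_star_mul_self, pow_two]

theorem partC : PartC.{u} := by
  intro X _ _ T D h f hf
  have h1 : Conclusion (Homeomorph.compStarAlgEquiv' ℂ ℂ T) D := by
    refine partB C(X, ℂ) (lp (fun _ : X => ℂ) ∞) (toB X) toB_inj _ D fun g hg => Or.inl ?_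
    obtain ⟨E, a, s, ha, hs, H⟩ := h g hg
    exact ⟨E, a, s, ha, hs, fun n hn δ h0 h1 => nearIn_classes T g n δ _ (H n hn δ h0 h1)⟩
  have key : ∀ b : ℕ → ℤ, NormDisjoint (Homeomorph.compStarAlgEquiv' ℂ ℂ T) b f → UniformlyDisjoint T b f := by
    intro b hb ε hε
    obtain ⟨-, N0, hN0⟩ := hb ε hε
    refine ⟨N0, fun N hN θ x => le_trans ?_ (hN0 N hN θ)⟩
    have e1 : twistedSum b θ (Icc 1 N) (fun m => f (T^[m] x)) =
        (orbitSum (Homeomorph.compStarAlgEquiv' ℂ ℂ T) b θ (Icc 1 N) f) x := by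
      unfold orbitSum twistedSum
      rw [ContinuousMap.coe_sum, Finset.sum_apply]
      refine sum_congr rfl fun m _ => ?_
      rw [ContinuousMap.coe_smul, Pi.smul_apply, pow_comp]
    rw [e1]
    exact ContinuousMap.norm_coe_le_norm _ x
  exact ⟨key mu (h1.1 f hf).1, key lam (h1.1 f hf).2⟩

end spaces

/-- **Möbius disjointness for automorphisms of C*-algebras whose orbits have small polynomial approximation
rank.** -/
theorem result : PartA.{u} ∧ PartB.{u, v} ∧ PartC.{u} := ⟨partA, partB, partC⟩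

end Pool.Agent.Results.MP_7a8f48_an.PolynomialRank
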