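import Pool.Graph.R_seed8.W726.NS.Reg
import Pool.Agent.Helper29.RH.Pow
import Pool.Agent.Helper29.RH.Core3
import Pool.Agent.Helper29.RH.Inner

/-! Q1 for automorphisms of reduced twisted C*-algebras of relatively hyperbolic groups. -/

set_option autoImplicit false

open Filter Topology

namespace Pool.Agent.Results.MP_7a8f48_an.RelativelyHyperbolicGroups

/-- Möbius disjointness of a unital `*`-endomorphism `α`: for each `x`, the averages of
`μ(n) ρ(αⁿ x)` tend to zero for each bounded functional `ρ`, and the averages of `μ(n) π(αⁿ x) ξ`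
tend to zero in norm for each representation `π` on a Hilbert space and each vector `ξ`. -/
def MobiusDisjoint {U : Type} [CStarAlgebra U] (α : U →⋆ₐ[ℂ] U) : Prop :=
  ∀ x : U,
    (∀ ρ : U →L[ℂ] ℂ, Tendsto (fun N : ℕ => (1 / (N : ℂ)) *
      ∑ n ∈ Finset.Icc 1 N, ((ArithmeticFunction.moebius n : ℤ) : ℂ) * ρ ((α^[n]) x))
      atTop (𝓝 0)) ∧
    ∀ (K : Type) [NormedAddCommGroup K] [InnerProductSpace ℂ K] [CompleteSpace K]
      (π : U →⋆ₐ[ℂ] (K →L[ℂ] K)) (ξ : K), Tendsto (fun N : ℕ => (1 / (N : ℂ)) •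
      ∑ n ∈ Finset.Icc 1 N, ((ArithmeticFunction.moebius n : ℤ) : ℂ) • π ((α^[n]) x) ξ)
      atTop (𝓝 0)

/-- `w` is an eigenvector of `β` with an eigenvalue of modulus one -/
def Eigenvector {B : Type} [CStarAlgebra B] (β : B →⋆ₐ[ℂ] B) (w : B) : Prop :=
  ∃ l : ℂ, ‖l‖ = 1 ∧ β w = l • w

/-- the products `v * y * w` of the elements `y` of `Y` with eigenvectors `v`, `w` of `β` span a
dense subspace of `B` -/
def Generates {B : Type} [CStarAlgebra B] (β : B →⋆ₐ[ℂ] B) (Y : Set B) : Prop :=
  (Submodule.span ℂ {x : B | ∃ y ∈ Y, ∃ v w, Eigenvector β v ∧ Eigenvector β w ∧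
    x = v * y * w}).topologicalClosure = ⊤

/-- `α` is Möbius disjoint, together with each system `(B, β)` which is generated over eigenvectors
of `β` by an equivariant image of `(A, α)`, and together with each system `(W, γ)` which embeds in
such a `(B, β)`. With `B = A` this contains the restrictions of `α` to invariant C*-subalgebras. -/
def AllDisjoint {A : Type} [CStarAlgebra A] (α : A →⋆ₐ[ℂ] A) : Prop :=
  MobiusDisjoint α ∧
  ∀ (B : Type) [CStarAlgebra B] (β : B →⋆ₐ[ℂ] B) (ι : A →⋆ₐ[ℂ] B),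
    (∀ a, β (ι a) = ι (α a)) → Generates β (Set.range ι) →
    MobiusDisjoint β ∧
    ∀ (W : Type) [CStarAlgebra W] (γ : W →⋆ₐ[ℂ] W) (κ : W →⋆ₐ[ℂ] B), Function.Injective κ →
      (∀ w, κ (γ w) = β (κ w)) → MobiusDisjoint γ

/-- The algebra `A` with the unitaries `u g` is the reduced C*-algebra of the group `G`, twisted by a
cocycle with values in the circle: `u (g * h)` is a scalar multiple of `u g * u h`, the closed span
of the `u g` is `A`, and there is a faithful state `τ` with `τ (u g) = 0` for `g ≠ 1`. -/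
structure ReducedTwistedAlgebra {A G : Type} [CStarAlgebra A] [Group G] (u : G → A) : Prop where
  unit : ∀ g, u g ∈ unitary A
  mul : ∀ g h, ∃ z : ℂ, ‖z‖ = 1 ∧ u (g * h) = z • (u g * u h)
  dense : (Submodule.span ℂ (Set.range u)).topologicalClosure = ⊤
  state : ∃ τ : A →L[ℂ] ℂ, (∀ x, ‖τ x‖ ≤ ‖x‖) ∧ τ 1 = 1 ∧ (∀ g, g ≠ 1 → τ (u g) = 0) ∧
    ∀ a : A, a ≠ 0 → ∃ r : ℝ, 0 < r ∧ τ (star a * a) = r

/-- `α` maps each `u g` to a scalar multiple of `u (σ g)` -/
def Affine {A G : Type} [CStarAlgebra A] [Group G] (u : G → A) (σ : MulAut G)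
    (α : A →⋆ₐ[ℂ] A) : Prop := ∀ g, ∃ c : ℂ, ‖c‖ = 1 ∧ α (u g) = c • u (σ g)

/-- `H` has a solvable subgroup of finite index -/
def VirtuallySolvable (H : Type) [Group H] : Prop :=
  ∃ S : Subgroup H, S.FiniteIndex ∧ Group.IsSolvable S

/-- `H` has a nilpotent subgroup of finite index -/
def VirtuallyNilpotent (H : Type) [Group H] : Prop :=
  ∃ S : Subgroup H, S.FiniteIndex ∧ Group.IsNilpotent S

/-- `Q` acts on `X` by homeomorphisms, as a convergence group: each sequence of distinct elements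
has a subsequence which converges to a point `a`, uniformly off each neighbourhood of a point
`b`. -/
def ConvergenceAction (Q X : Type) [Group Q] [TopologicalSpace X] [MulAction Q X] : Prop :=
  (∀ g : Q, Continuous fun p : X => g • p) ∧
  ∀ x : ℕ → Q, Function.Injective x → ∃ φ : ℕ → ℕ, StrictMono φ ∧ ∃ a b : X,
    ∀ U ∈ 𝓝 a, ∀ V ∈ 𝓝 b, ∀ᶠ n in atTop, ∀ p : X, p ∉ V → x (φ n) • p ∈ U

/-- The group `Q` acts as a convergence group with virtually solvable point stabilisers on an
infinite compact Hausdorff space. Examples are the subgroups of the groups which are hyperbolic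
relative to virtually solvable subgroups (on the Bowditch boundary; if it is infinite), in
particular the subgroups of the hyperbolic groups, and the discrete subgroups of the simple Lie
groups of rank one. -/
def RelativelyHyperbolic (Q : Type) [Group Q] : Prop :=
  ∃ (X : Type) (_ : TopologicalSpace X) (_ : CompactSpace X) (_ : T2Space X) (_ : Infinite X)
    (_ : MulAction Q X), ConvergenceAction Q X ∧
    ∀ p : X, VirtuallySolvable (MulAction.stabilizer Q p)

/-- The automorphism `τ` of `G` and the subgroup `H` (invariant under `τ`) are of hyperbolic type: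
there are finitely many homomorphisms `π i` of `H` onto groups `Q i` with the last property, such
that each kernel is invariant under `τ` and such that the intersection of the kernels is virtually
solvable. For `r = 0` this says that `H` is virtually solvable, and `r = 1` with the identity is the
case where `H` has the last property. -/
def HyperbolicType {G : Type} [Group G] (τ : MulAut G) (H : Subgroup G) : Prop :=
  ∃ (r : ℕ) (Q : Fin r → Type) (_ : ∀ i, Group (Q i)) (π : ∀ i, H →* Q i),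
    (∀ i, Function.Surjective (π i) ∧ RelativelyHyperbolic (Q i) ∧
      ∀ x y : H, (y : G) = τ x → (π i x = 1 ↔ π i y = 1)) ∧
    VirtuallySolvable (⨅ i, (π i).ker : Subgroup H)

/-- Each `g` lies in a subgroup `H` which, for some `m > 0`, is invariant under `σᵐ` and of
hyperbolic type with `σᵐ`. -/
def Admissible {G : Type} [Group G] (σ : MulAut G) : Prop :=
  ∀ g : G, ∃ (H : Subgroup G) (m : ℕ), g ∈ H ∧ 0 < m ∧ (∀ x, x ∈ H ↔ (σ ^ m) x ∈ H) ∧
    HyperbolicType (σ ^ m) H

/-- `f` is contractive -/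
def Contractive {A B : Type} [CStarAlgebra A] [CStarAlgebra B] (f : A →ₗ[ℂ] B) : Prop :=
  ∀ x, ‖f x‖ ≤ ‖x‖

/-- `f` is contractive and completely positive: the sums `∑ bᵢ⋆ f(aᵢ⋆ aⱼ) bⱼ` are positive -/
def ContractiveCP {A B : Type} [CStarAlgebra A] [CStarAlgebra B] (f : A →ₗ[ℂ] B) : Prop :=
  Contractive f ∧ ∀ (n : ℕ) (a : Fin n → A) (b : Fin n → B), ∃ c : B,
    ∑ i, ∑ j, star (b i) * f (star (a i) * a j) * b j = star c * c

/-- There are linear maps `φ : A → M` and `ψ : M → B` with the property `P` such that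
`‖ψ(φ(a)) - π(a)‖ < δ` for all `a` in `S`. -/
def Factors {A B : Type} [CStarAlgebra A] [CStarAlgebra B]
    (P : ∀ {X Y : Type} [CStarAlgebra X] [CStarAlgebra Y], (X →ₗ[ℂ] Y) → Prop)
    (π : A →⋆ₐ[ℂ] B) (S : Set A) (δ : ℝ) (M : Type) [CStarAlgebra M] : Prop :=
  ∃ (φ : A →ₗ[ℂ] M) (ψ : M →ₗ[ℂ] B), P φ ∧ P ψ ∧ ∀ a ∈ S, ‖ψ (φ a) - π a‖ < δ

/-- The growth of the ranks is subexponential: `A` has a faithful representation `π` such that for
all finite sets `Ω`, all `δ > 0` and `ε > 0` and all large `n` there are `k ≤ exp (ε n)` and maps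
`A → M_k → B(H)` with the property `P` whose composition approximates `π` up to `δ` on
`Ω ∪ α(Ω) ∪ ⋯ ∪ αⁿ⁻¹(Ω)`. Here `M_k` is the algebra of the operators on the Hilbert space `ℂ^k`. -/
def Subexponential {A : Type} [CStarAlgebra A] (α : A →⋆ₐ[ℂ] A)
    (P : ∀ {X Y : Type} [CStarAlgebra X] [CStarAlgebra Y], (X →ₗ[ℂ] Y) → Prop) : Prop :=
  ∃ (H : Type) (_ : NormedAddCommGroup H) (_ : InnerProductSpace ℂ H) (_ : CompleteSpace H)
    (π : A →⋆ₐ[ℂ] (H →L[ℂ] H)), Function.Injective π ∧
    ∀ (Ω : Finset A) (δ ε : ℝ), 0 < δ → 0 < ε → ∀ᶠ n : ℕ in atTop,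
      ∃ k : ℕ, (k : ℝ) ≤ Real.exp (ε * n) ∧
        Factors P π {x | ∃ i < n, ∃ a ∈ Ω, x = (α^[i]) a} δ
          (EuclideanSpace ℂ (Fin k) →L[ℂ] EuclideanSpace ℂ (Fin k))

/-- the Voiculescu-Brown entropy of `α` is zero: `ht(α) = 0` -/
def ZeroEntropy {A : Type} [CStarAlgebra A] (α : A →⋆ₐ[ℂ] A) : Prop :=
  Subexponential α ContractiveCP

/-- The subgroup `N` is invariant under `σ`, and `σ` is quasi-unipotent on its abelianization: for
each `x` in `N` there are `m > 0` and `k` such that the `k`-th iterate of `h ↦ h⁻¹ σᵐ(h)` maps `x`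
into the commutator subgroup of `N`; that is, `(σᵐ - 1)ᵏ` kills the class of `x`. -/
def QuasiUnipotentOn {G : Type} [Group G] (σ : MulAut G) (N : Subgroup G) : Prop :=
  (∀ x, x ∈ N ↔ σ x ∈ N) → ∀ x ∈ N, ∃ m : ℕ, 0 < m ∧ ∃ k : ℕ,
    (fun h : G => h⁻¹ * (σ ^ m) h)^[k] x ∈ ⁅N, N⁆

/-- The orbit of `x` is scattered: all its averages with bounded weights tend to zero in norm,
uniformly in the weights. -/
def Scattered {A : Type} [CStarAlgebra A] (α : A →⋆ₐ[ℂ] A) (x : A) : Prop :=
  ∀ ε : ℝ, 0 < ε → ∃ N₀ : ℕ, ∀ N : ℕ, N₀ ≤ N → ∀ c : ℕ → ℂ, (∀ n, ‖c n‖ ≤ 1) →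
    ‖∑ n ∈ Finset.range N, c n • (α^[n]) x‖ ≤ ε * N

/-- `g` and `σᵐ(g)` are, for some `m > 0`, in the same coset of a virtually solvable subgroup which
is invariant under `σᵐ` -/
def Solvable {G : Type} [Group G] (σ : MulAut G) (g : G) : Prop :=
  ∃ m : ℕ, 0 < m ∧ ∃ E : Subgroup G, VirtuallySolvable E ∧ (∀ z, z ∈ E ↔ (σ ^ m) z ∈ E) ∧
    g⁻¹ * (σ ^ m) g ∈ E

open Pool.Agent.TH261.AB (Good)
open Pool.Agent.TH261.NP (Eig)
open Pool.Agent.Helper29.NU Pool.Agent.Helper29.VP Pool.Agent.Helper29.VS Pool.Agent.Helper29.TW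
open Pool.Agent.Helper29.RH

theorem mobiusDisjoint_of {U : Type} [CStarAlgebra U] {α : U →⋆ₐ[ℂ] U} (h : ∀ x, Good α x) :
    MobiusDisjoint α := fun x => ⟨(h x).fun, fun K _ _ _ π ξ => (h x).rep K π ξ⟩

theorem main {A : Type} [CStarAlgebra A] (α : A →⋆ₐ[ℂ] A)
    (hgen : Generates α (NilU α ∪ {x | Scat α x})) : AllDisjoint α := by
  have hg : ∀ (B : Type) [CStarAlgebra B] (β : B →⋆ₐ[ℂ] B) (ι : A →⋆ₐ[ℂ] B),
      (∀ a, β (ι a) = ι (α a)) → Generates β (Set.range ι) → ∀ x, Good β x := fun B _ β ι hι h =>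
    good_mixed hgen β ι hι h
  refine ⟨?_, fun B _ β ι hι h => ?_⟩
  · refine mobiusDisjoint_of (hg A α (StarAlgHom.id ℂ A) (fun a => rfl) ?_)
    rw [Generates, eq_top_iff]
    intro a _
    exact Submodule.le_topologicalClosure _ (Submodule.subset_span ⟨a, ⟨a, rfl⟩, 1, 1,
      Eig.one α, Eig.one α, by rw [one_mul, mul_one]⟩)
  · have h1 := hg B β ι hι h
    exact ⟨mobiusDisjoint_of h1, fun W _ γ κ hκ hγ => mobiusDisjoint_of (Good.embed h1 γ κ hκ hγ)⟩

theorem zeroRankCP {A : Type} [CStarAlgebra A] {α : A →⋆ₐ[ℂ] A} (h : ZeroEntropy α) :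
    ZeroRankCP α := by
  obtain ⟨H, i1, i2, i3, π, hπ, h⟩ := h
  refine ⟨H, i1, i2, i3, π, hπ, fun Ω δ ε hδ hε => (h Ω δ ε hδ hε).mono fun n hn => ?_⟩
  obtain ⟨k, hk, φ, ψ, hφ, hψ, h⟩ := hn
  exact ⟨k, hk, φ, ψ, hφ.1, hψ.1, hψ.2, fun i hi a ha => h _ ⟨i, hi, a, ha, rfl⟩⟩

/-- a set of elements whose span is dense generates -/
theorem generates_of_span {A : Type} [CStarAlgebra A] (α : A →⋆ₐ[ℂ] A) (Y : Set A)
    (h : (Submodule.span ℂ Y).topologicalClosure = ⊤) : Generates α Y := by
  rw [Generates, eq_top_iff, ← h]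
  refine Submodule.topologicalClosure_mono (Submodule.span_mono fun y hy => ?_)
  exact ⟨y, hy, 1, 1, ⟨1, norm_one, by rw [map_one, one_smul]⟩,
    ⟨1, norm_one, by rw [map_one, one_smul]⟩, by rw [one_mul, mul_one]⟩

theorem scalar {A : Type} [CStarAlgebra A] (α : A →⋆ₐ[ℂ] A) (c : ℂ) (hc : ‖c‖ = 1) :
    (c • (1 : A) ∈ unitary A ∧ ∀ a : A, (c • (1 : A)) * a = a * (c • (1 : A))) ∧
      α (c • (1 : A)) = c • (1 : A) := by
  have h1 : star c * c = 1 := by
    rw [Complex.star_def, Complex.conj_mul', hc]; simp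
  refine ⟨⟨?_, fun a => by rw [smul_mul_assoc, mul_smul_comm, one_mul, mul_one]⟩,
    by rw [map_smul, map_one]⟩
  rw [Unitary.mem_iff]
  constructor
  · rw [star_smul, star_one, smul_mul_smul_comm, one_mul, h1, one_smul]
  · rw [star_smul, star_one, smul_mul_smul_comm, one_mul, mul_comm, h1, one_smul]

theorem dichotomy {A G : Type} [CStarAlgebra A] [Group G] {u : G → A} {σ : MulAut G}
    {α : A →⋆ₐ[ℂ] A} (hu : ReducedTwistedAlgebra u) (hG : Admissible σ) (hα : Affine u σ α)
    (g : G) : Scattered α (u g) ∨ Solvable σ g := by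
  obtain ⟨τ, -, h1, h2, h3⟩ := hu.state
  obtain ⟨H, m, hgH, hm, hH, r, Q, iQ, π, hπ, hV⟩ := hG g
  refine loc_dich (u := u) (τ := τ) ⟨hu.unit, hu.mul, hu.dense, h1, h2, h3⟩ σ α hα H hm hH
    (fun i => (π i).ker) (fun i => ?_) (fun i x y hxy => ?_) hV g hgH
  · obtain ⟨hs, ⟨X, i1, i2, i3, i4, i5, hc, hst⟩, -⟩ := hπ i
    exact ⟨Q i, iQ i, π i, X, i1, i2, i3, i4, i5, hs, rfl, hc, hst⟩
  · exact (hπ i).2.2 x y hxy

theorem spectral {A G : Type} [CStarAlgebra A] [Group G] {u : G → A}
    {σ : MulAut G} {α : A →⋆ₐ[ℂ] A} (hu : ReducedTwistedAlgebra u) (hG : Admissible σ)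
    (hα : Affine u σ α)
    (hσ : ∀ m : ℕ, 0 < m → ∀ N : Subgroup G, Group.IsSolvable N → QuasiUnipotentOn (σ ^ m) N) :
    AllDisjoint α := by
  refine main α (generates_of_span α _ ?_)
  rw [eq_top_iff, ← hu.dense]
  refine Submodule.topologicalClosure_mono (Submodule.span_mono ?_)
  rintro _ ⟨g, rfl⟩
  rcases dichotomy hu hG hα g with h | ⟨m, hm, E, hE, hinv, hg⟩
  · exact Or.inr h
  · refine Or.inl (nilU_of_vs hu.unit (fun g h => ?_) (fun g => ?_)
      (fun k hk N hN => hσ k hk N hN) hm hE hinv hg)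
    · obtain ⟨z, hz, hzu⟩ := hu.mul g h
      exact ⟨z • 1, (scalar α z hz).1, (scalar α z hz).2, by rw [smul_mul_assoc, one_mul, hzu]⟩
    · obtain ⟨z, hz, hzu⟩ := hα g
      exact ⟨z • 1, (scalar α z hz).1, (scalar α z hz).2, by rw [smul_mul_assoc, one_mul, hzu]⟩

/-- the subgroup is of hyperbolic type if it is isomorphic to a relatively hyperbolic group -/
theorem type_of_relativelyHyperbolic {G Q : Type} [Group G] [Group Q] (τ : MulAut G)
    (H : Subgroup G) (e : H ≃* Q) (h : RelativelyHyperbolic Q) : HyperbolicType τ H := by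
  refine ⟨1, fun _ => Q, fun _ => inferInstance, fun _ => e.toMonoidHom, fun _ =>
    ⟨e.surjective, h, fun x y hxy => ?_⟩, ⊤, inferInstance, ?_⟩
  · show e x = 1 ↔ e y = 1
    rw [map_eq_one_iff e e.injective, map_eq_one_iff e e.injective]
    constructor
    · rintro rfl
      exact Subtype.ext (hxy.trans (map_one τ))
    · rintro rfl
      exact Subtype.ext ((map_eq_one_iff τ τ.injective).1 hxy.symm)
  · have h1 : (⨅ _ : Fin 1, e.toMonoidHom.ker) = ⊥ := by
      rw [iInf_const]
      exact (MonoidHom.ker_eq_bot_iff _).2 e.injective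
    have h2 : ∀ x ∈ (⨅ _ : Fin 1, e.toMonoidHom.ker : Subgroup H), x = 1 := by
      intro x hx
      rw [h1, Subgroup.mem_bot] at hx
      exact hx
    exact Group.isSolvable_of_comm fun a b =>
      Subtype.ext (Subtype.ext ((h2 _ (a * b).1.2).trans (h2 _ (b * a).1.2).symm))

/-- the subgroup is of hyperbolic type if it is virtually solvable -/
theorem type_of_virtuallySolvable {G : Type} [Group G] (τ : MulAut G) (H : Subgroup G)
    (h : VirtuallySolvable H) : HyperbolicType τ H := by
  refine ⟨0, fun _ => Unit, fun i => i.elim0, fun i => i.elim0, fun i => i.elim0, ?_⟩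
  rw [iInf_of_empty]
  exact VSg.of_injective (Subgroup.topEquiv (G := H)).toMonoidHom
    (Subgroup.topEquiv (G := H)).injective h

/-- the invariance of a subgroup which contains `h` under conjugation by `h` -/
theorem conj_mem {G : Type} [Group G] {σ : MulAut G} {h : G} {k : ℕ}
    (hσ : ∀ x, (σ ^ k) x = h * x * h⁻¹) (H : Subgroup G) (hh : h ∈ H) (x : G) :
    x ∈ H ↔ (σ ^ k) x ∈ H := by
  rw [hσ]
  refine ⟨fun hx => mul_mem (mul_mem hh hx) (inv_mem hh), fun hx => ?_⟩
  have := mul_mem (mul_mem (inv_mem hh) hx) hh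
  rwa [show h⁻¹ * (h * x * h⁻¹) * h = x by group] at this

theorem countable_two {G : Type} [Group G] (g h : G) :
    Countable (Subgroup.closure {g, h} : Subgroup G) := by
  have e : Set.range (fun k : ℤ => if k = 0 then g else h) = {g, h} := by
    ext x
    constructor
    · rintro ⟨k, rfl⟩
      by_cases hk : k = 0
      · simp [hk]
      · simp [hk]
    · rintro (rfl | rfl)
      · exact ⟨0, by simp⟩
      · exact ⟨1, by simp⟩
  rw [← e]
  exact countable_closure _

/-- A power of `σ` is the conjugation by an element `h`, and for each `g` the subgroup generated by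
`g` and `h` has the property `P`. -/
def InnerWith {G : Type} [Group G] (σ : MulAut G) (P : Subgroup G → Prop) : Prop :=
  ∃ (k : ℕ) (h : G), 0 < k ∧ (∀ x, (σ ^ k) x = h * x * h⁻¹) ∧
    ∀ g : G, P (Subgroup.closure {g, h})

theorem admissible_of {G : Type} [Group G] (σ : MulAut G)
    (hG : VirtuallySolvable G ∨ RelativelyHyperbolic G ∨
      InnerWith σ fun H => VirtuallySolvable H ∨ RelativelyHyperbolic H ∨ IsFreeGroup H) :
    Admissible σ := by
  intro g
  rcases hG with h | h | ⟨k, h, hk, hσ, hG⟩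
  · exact ⟨⊤, 1, Subgroup.mem_top g, one_pos, fun x => by simp,
      type_of_virtuallySolvable _ _ (VSg.of_injective
        (Subgroup.topEquiv (G := G)).toMonoidHom (Subgroup.topEquiv (G := G)).injective h)⟩
  · exact ⟨⊤, 1, Subgroup.mem_top g, one_pos, fun x => by simp,
      type_of_relativelyHyperbolic _ _ Subgroup.topEquiv h⟩
  · refine ⟨Subgroup.closure {g, h}, k, Subgroup.subset_closure (by simp), hk,
      conj_mem hσ _ (Subgroup.subset_closure (by simp)), ?_⟩
    rcases hG g with h1 | h1 | h1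
    · exact type_of_virtuallySolvable _ _ h1
    · exact type_of_relativelyHyperbolic _ _ (MulEquiv.refl _) h1
    · haveI := countable_two g h
      rcases free_cases h1 with h2 | h2
      · exact type_of_relativelyHyperbolic _ _ (MulEquiv.refl _) h2
      · exact type_of_virtuallySolvable _ _ h2

theorem qus_inner {G : Type} [Group G] {σ : MulAut G}
    (hG : InnerWith σ fun H => VirtuallyNilpotent H ∨ IsFreeGroup H) (m : ℕ)
    (N : Subgroup G) (hN : Group.IsSolvable N) : QuasiUnipotentOn (σ ^ m) N := by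
  obtain ⟨k, h, hk, hσ, hG⟩ := hG
  intro hinv x hx
  obtain ⟨j, hj, l, hl⟩ := conj_qus (σ := σ ^ k) (h := h) hσ (fun g => (hG g).symm) m N hN
    (fun x => by
      have := inv_mul_pow hinv k x
      rwa [mul_comm, pow_mul] at this) x hx
  refine ⟨k * j, Nat.mul_pos hk hj, l, ?_⟩
  have e : (σ ^ m) ^ (k * j) = ((σ ^ k) ^ m) ^ j := by
    rw [← pow_mul, ← pow_mul, ← pow_mul]
    congr 1
    ring
  rw [e]
  exact hl

/-- **Q1 for the reduced C*-algebras of groups of hyperbolic type.** Let `σ` be an automorphism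
of `G`, let `A` be the reduced C*-algebra of `G`, possibly twisted by a cocycle, and let `α` be an
endomorphism of `A` which maps each `u g` to a scalar multiple of `u (σ g)`. Assume in 1, 2 and 3
that `σ` is admissible.

1. If the Voiculescu-Brown entropy of `α` is zero, then `α` is Möbius disjoint, and so are all systems
which are generated by `α` over eigenvectors, and their subsystems.

2. It is enough that the powers of `σ` are quasi-unipotent on the abelianizations of their invariant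
solvable subgroups.

3. Without a condition on the entropy, the orbit of each `u g` is scattered, or `g` and `σᵐ(g)` are
in the same coset of a virtually solvable subgroup invariant under `σᵐ`, for some `m > 0`.

4. The automorphism `σ` is admissible if `G` is virtually solvable or relatively hyperbolic, or if a
power of `σ` is the conjugation by an element `h` and for each `g` the subgroup generated by `g` and
`h` is virtually solvable, relatively hyperbolic or free.

5. If a power of `σ` is the conjugation by an element `h` and for each `g` the subgroup generated by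
`g` and `h` is virtually nilpotent or free, then the conclusion of 1 holds without a condition on the
entropy. -/
theorem result (A G : Type) [CStarAlgebra A] [Group G] (u : G → A) (σ : MulAut G)
    (α : A →⋆ₐ[ℂ] A) (hu : ReducedTwistedAlgebra u) (hα : Affine u σ α) :
    (Admissible σ →
      (ZeroEntropy α → AllDisjoint α) ∧
      ((∀ m : ℕ, 0 < m → ∀ N : Subgroup G, Group.IsSolvable N → QuasiUnipotentOn (σ ^ m) N) →
        AllDisjoint α) ∧
      ∀ g : G, Scattered α (u g) ∨ Solvable σ g) ∧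
    (VirtuallySolvable G ∨ RelativelyHyperbolic G ∨
      (InnerWith σ fun H => VirtuallySolvable H ∨ RelativelyHyperbolic H ∨ IsFreeGroup H) →
        Admissible σ) ∧
    ((InnerWith σ fun H => VirtuallyNilpotent H ∨ IsFreeGroup H) → AllDisjoint α) := by
  refine ⟨fun hG => ⟨fun h => spectral hu hG hα fun m hm N hN => ?_,
    fun h => spectral hu hG hα h, dichotomy hu hG hα⟩, admissible_of σ, fun hG => ?_⟩
  · obtain ⟨τ, h0, h1, h2, -⟩ := hu.state
    exact qus_of_zero hu.unit hu.mul τ h0 h1 h2 hα (zeroRankCP h) hm N hN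
  · refine spectral hu (admissible_of σ (Or.inr (Or.inr ?_))) hα fun m _ N hN => qus_inner hG m N hN
    obtain ⟨k, h, hk, hσ, hG⟩ := hG
    refine ⟨k, h, hk, hσ, fun g => ?_⟩
    rcases hG g with ⟨S, hS, hSn⟩ | h1
    · exact Or.inl ⟨S, hS, inferInstance⟩
    · exact Or.inr (Or.inr h1)

/-- The reduced C*-algebra of `G`, as the closed `*`-algebra generated by the left translations
of `ℓ²(G)`, is an example. -/
theorem regular (G : Type) [Group G] :
    ReducedTwistedAlgebra (Pool.Agent.W726.NS.lam : G → Pool.Agent.H379R3.CS.reducedCStar G) := by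
  have h := Pool.Agent.W726.NS.redAlg_regular G
  refine ⟨h.unit, h.mul, h.dense, Pool.Agent.W726.NS.trc G, fun x => ?_, h.one, h.zero, h.pos⟩
  rw [Pool.Agent.W726.NS.trc_apply]
  refine (norm_inner_le_norm _ _).trans ?_
  rw [Pool.Agent.W726.NS.norm_dl, one_mul]
  refine (x.1.le_opNorm _).trans ?_
  rw [Pool.Agent.W726.NS.norm_dl, mul_one]
  rfl

end Pool.Agent.Results.MP_7a8f48_an.RelativelyHyperbolicGroups
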