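import Pool.Agent.Helper29.NU.Grpa
import Pool.Agent.Helper29.VS.Loc2
import Pool.Agent.Helper29.TW.Ent

/-! Q1 for automorphisms of twisted C*-algebras of virtually solvable groups. -/

set_option autoImplicit false

open Filter Topology

namespace Pool.Agent.Results.MP_7a8f48_an.VirtuallySolvableGroups

/-- Möbius disjointness of a unital `*`-endomorphism `α`: for each `x`, the averages of
`μ(n) ρ(αⁿ x)` tend to zero for each bounded functional `ρ`, and the averages of `μ(n) π(αⁿ x) ξ`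
tend to zero in norm for each representation `π` on a Hilbert space and each vector `ξ`. -/
def MobiusDisjoint {U : Type} [CStarAlgebra U] (α : U →⋆ₐ[ℂ] U) : Prop :=
  ∀ x : U,
    (∀ ρ : U →L[ℂ] ℂ, Tendsto (fun N : ℕ => (1 / (N : ℂ)) *
      ∑ n ∈ Finset.Icc 1 N, ((ArithmeticFunction.moebius n : ℤ) : ℂ) * ρ ((α^[n]) x))
      atTop (𝓝 0)) ∧
    ∀ (K : Type) [NormedAddCommGroup K] [InnerProductSpace ℂ K] [CompleteSpace K]
      (π : U →⋆ₐ[ℂ] (K →L[ℂ] K)) (ξ : K), Tendsto (fun N : ℕ => (1 / (N : ℂ)) •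
      ∑ n ∈ Finset.Icc 1 N, ((ArithmeticFunction.moebius n : ℤ) : ℂ) • π ((α^[n]) x) ξ)
      atTop (𝓝 0)

/-- `w` is an eigenvector of `β` with an eigenvalue of modulus one -/
def Eigenvector {B : Type} [CStarAlgebra B] (β : B →⋆ₐ[ℂ] B) (w : B) : Prop :=
  ∃ l : ℂ, ‖l‖ = 1 ∧ β w = l • w

/-- the products `v * y * w` of the elements `y` of `Y` with eigenvectors `v`, `w` of `β` span a
dense subspace of `B` -/
def Generates {B : Type} [CStarAlgebra B] (β : B →⋆ₐ[ℂ] B) (Y : Set B) : Prop :=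
  (Submodule.span ℂ {x : B | ∃ y ∈ Y, ∃ v w, Eigenvector β v ∧ Eigenvector β w ∧
    x = v * y * w}).topologicalClosure = ⊤

/-- `α` is Möbius disjoint, together with each system `(B, β)` which is generated over eigenvectors
of `β` by an equivariant image of `(A, α)`, and together with each system `(W, γ)` which embeds in
such a `(B, β)`. With `B = A` this contains the restrictions of `α` to invariant C*-subalgebras. -/
def AllDisjoint {A : Type} [CStarAlgebra A] (α : A →⋆ₐ[ℂ] A) : Prop :=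
  MobiusDisjoint α ∧
  ∀ (B : Type) [CStarAlgebra B] (β : B →⋆ₐ[ℂ] B) (ι : A →⋆ₐ[ℂ] B),
    (∀ a, β (ι a) = ι (α a)) → Generates β (Set.range ι) →
    MobiusDisjoint β ∧
    ∀ (W : Type) [CStarAlgebra W] (γ : W →⋆ₐ[ℂ] W) (κ : W →⋆ₐ[ℂ] B), Function.Injective κ →
      (∀ w, κ (γ w) = β (κ w)) → MobiusDisjoint γ

/-- Each element of `G` lies in a subgroup `N` which is invariant under the automorphism `σ` and has
a solvable subgroup of finite index. If `G` itself is virtually solvable, this holds for all `σ`. -/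
def LocallyVirtuallySolvable {G : Type} [Group G] (σ : MulAut G) : Prop :=
  ∀ g : G, ∃ N : Subgroup G, g ∈ N ∧ (∀ x, x ∈ N ↔ σ x ∈ N) ∧
    ∃ S : Subgroup N, S.FiniteIndex ∧ Group.IsSolvable S

/-- The algebra `A` with the unitaries `u g` is a C*-algebra of the group `G` twisted by a scalar
cocycle: `u (g * h)` is a scalar multiple of `u g * u h`, the closed span of the `u g` is `A`, and
there is a state `τ` with `τ (u g) = 0` for `g ≠ 1`, that is, `A` maps onto the reduced twisted group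
C*-algebra. For an amenable group, for example a virtually solvable one, `A` is the twisted group
C*-algebra. Examples are the noncommutative tori (`G = ℤⁿ`), the Weyl algebras (`G` the additive
group of a symplectic space), and the full and the reduced C*-algebra of any group. -/
structure TwistedGroupAlgebra {A G : Type} [CStarAlgebra A] [Group G] (u : G → A) : Prop where
  unit : ∀ g, u g ∈ unitary A
  mul : ∀ g h, ∃ z : ℂ, ‖z‖ = 1 ∧ u (g * h) = z • (u g * u h)
  dense : (Submodule.span ℂ (Set.range u)).topologicalClosure = ⊤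
  state : ∃ τ : A →L[ℂ] ℂ, (∀ x, ‖τ x‖ ≤ ‖x‖) ∧ τ 1 = 1 ∧ ∀ g, g ≠ 1 → τ (u g) = 0

/-- The algebra `A` with the unitaries `u g` is the full C*-algebra of the group `G`: the closed
span of the `u g` is `A`, and each unitary representation of `G` extends to `A`. -/
structure GroupAlgebra {A G : Type} [CStarAlgebra A] [Group G] (u : G → A) : Prop where
  unit : ∀ g, u g ∈ unitary A
  mul : ∀ g h, u (g * h) = u g * u h
  dense : (Submodule.span ℂ (Set.range u)).topologicalClosure = ⊤
  universal : ∀ (K : Type) [NormedAddCommGroup K] [InnerProductSpace ℂ K] [CompleteSpace K]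
    (v : G →* (K ≃ₗᵢ[ℂ] K)), ∃ ρ : A →⋆ₐ[ℂ] (K →L[ℂ] K), ∀ g ξ, ρ (u g) ξ = v g ξ

/-- `f` is contractive -/
def Contractive {A B : Type} [CStarAlgebra A] [CStarAlgebra B] (f : A →ₗ[ℂ] B) : Prop :=
  ∀ x, ‖f x‖ ≤ ‖x‖

/-- `f` is contractive and completely positive: the sums `∑ bᵢ⋆ f(aᵢ⋆ aⱼ) bⱼ` are positive -/
def ContractiveCP {A B : Type} [CStarAlgebra A] [CStarAlgebra B] (f : A →ₗ[ℂ] B) : Prop :=
  Contractive f ∧ ∀ (n : ℕ) (a : Fin n → A) (b : Fin n → B), ∃ c : B,
    ∑ i, ∑ j, star (b i) * f (star (a i) * a j) * b j = star c * c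

/-- There are linear maps `φ : A → M` and `ψ : M → B` with the property `P` such that
`‖ψ(φ(a)) - π(a)‖ < δ` for all `a` in `S`. -/
def Factors {A B : Type} [CStarAlgebra A] [CStarAlgebra B]
    (P : ∀ {X Y : Type} [CStarAlgebra X] [CStarAlgebra Y], (X →ₗ[ℂ] Y) → Prop)
    (π : A →⋆ₐ[ℂ] B) (S : Set A) (δ : ℝ) (M : Type) [CStarAlgebra M] : Prop :=
  ∃ (φ : A →ₗ[ℂ] M) (ψ : M →ₗ[ℂ] B), P φ ∧ P ψ ∧ ∀ a ∈ S, ‖ψ (φ a) - π a‖ < δ

/-- The growth of the ranks is subexponential: `A` has a faithful representation `π` such that for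
all finite sets `Ω`, all `δ > 0` and `ε > 0` and all large `n` there are `k ≤ exp (ε n)` and maps
`A → M_k → B(H)` with the property `P` whose composition approximates `π` up to `δ` on
`Ω ∪ α(Ω) ∪ ⋯ ∪ αⁿ⁻¹(Ω)`. Here `M_k` is the algebra of the operators on the Hilbert space `ℂ^k`. -/
def Subexponential {A : Type} [CStarAlgebra A] (α : A →⋆ₐ[ℂ] A)
    (P : ∀ {X Y : Type} [CStarAlgebra X] [CStarAlgebra Y], (X →ₗ[ℂ] Y) → Prop) : Prop :=
  ∃ (H : Type) (_ : NormedAddCommGroup H) (_ : InnerProductSpace ℂ H) (_ : CompleteSpace H)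
    (π : A →⋆ₐ[ℂ] (H →L[ℂ] H)), Function.Injective π ∧
    ∀ (Ω : Finset A) (δ ε : ℝ), 0 < δ → 0 < ε → ∀ᶠ n : ℕ in atTop,
      ∃ k : ℕ, (k : ℝ) ≤ Real.exp (ε * n) ∧
        Factors P π {x | ∃ i < n, ∃ a ∈ Ω, x = (α^[i]) a} δ
          (EuclideanSpace ℂ (Fin k) →L[ℂ] EuclideanSpace ℂ (Fin k))

/-- the Voiculescu-Brown entropy of `α` is zero: `ht(α) = 0` -/
def ZeroEntropy {A : Type} [CStarAlgebra A] (α : A →⋆ₐ[ℂ] A) : Prop :=
  Subexponential α ContractiveCP

/-- the same with contractions which are not necessarily completely positive -/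
def ZeroContractionEntropy {A : Type} [CStarAlgebra A] (α : A →⋆ₐ[ℂ] A) : Prop :=
  Subexponential α Contractive

/-- `z` is a central unitary -/
def CentralUnitary {A : Type} [CStarAlgebra A] (z : A) : Prop :=
  z ∈ unitary A ∧ ∀ a : A, z * a = a * z

/-- the `u g` are unitaries, and the identities `u (g * h) = u g * u h` and `α (u g) = u (σ g)` hold
up to central unitaries which are fixed by `α` -/
structure Covers {A G : Type} [CStarAlgebra A] [Group G] (u : G → A) (σ : MulAut G)
    (α : A →⋆ₐ[ℂ] A) : Prop where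
  unit : ∀ g, u g ∈ unitary A
  mul : ∀ g h, ∃ z, CentralUnitary z ∧ α z = z ∧ u (g * h) = z * (u g * u h)
  cov : ∀ g, ∃ z, CentralUnitary z ∧ α z = z ∧ α (u g) = z * u (σ g)

/-- `α` maps each `u g` to a scalar multiple of `u (σ g)` -/
def Affine {A G : Type} [CStarAlgebra A] [Group G] (u : G → A) (σ : MulAut G)
    (α : A →⋆ₐ[ℂ] A) : Prop := ∀ g, ∃ c : ℂ, ‖c‖ = 1 ∧ α (u g) = c • u (σ g)

/-- The subgroup `N` is invariant under `σ`, and `σ` is quasi-unipotent on its abelianization: for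
each `x` in `N` there are `m > 0` and `k` such that the `k`-th iterate of `h ↦ h⁻¹ σᵐ(h)` maps `x`
into the commutator subgroup of `N`; that is, `(σᵐ - 1)ᵏ` kills the class of `x`. -/
def QuasiUnipotentOn {G : Type} [Group G] (σ : MulAut G) (N : Subgroup G) : Prop :=
  (∀ x, x ∈ N ↔ σ x ∈ N) → ∀ x ∈ N, ∃ m : ℕ, 0 < m ∧ ∃ k : ℕ,
    (fun h : G => h⁻¹ * (σ ^ m) h)^[k] x ∈ ⁅N, N⁆

open Pool.Agent.TH261.AB (Good)
open Pool.Agent.TH261.NP (Eig)
open Pool.Agent.Helper29.NU Pool.Agent.Helper29.VP Pool.Agent.Helper29.VS Pool.Agent.Helper29.TW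

theorem mobiusDisjoint_of {U : Type} [CStarAlgebra U] {α : U →⋆ₐ[ℂ] U} (h : ∀ x, Good α x) :
    MobiusDisjoint α := fun x => ⟨(h x).fun, fun K _ _ _ π ξ => (h x).rep K π ξ⟩

theorem main {A : Type} [CStarAlgebra A] (α : A →⋆ₐ[ℂ] A)
    (hgen : Generates α (NilU α)) : AllDisjoint α := by
  have hg : ∀ (B : Type) [CStarAlgebra B] (β : B →⋆ₐ[ℂ] B) (ι : A →⋆ₐ[ℂ] B),
      (∀ a, β (ι a) = ι (α a)) → Generates β (Set.range ι) → ∀ x, Good β x := fun B _ β ι hι h =>
    good_all' hgen β ι hι h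
  refine ⟨?_, fun B _ β ι hι h => ?_⟩
  · refine mobiusDisjoint_of (hg A α (StarAlgHom.id ℂ A) (fun a => rfl) ?_)
    rw [Generates, eq_top_iff]
    intro a _
    exact Submodule.le_topologicalClosure _ (Submodule.subset_span ⟨a, ⟨a, rfl⟩, 1, 1,
      Eig.one α, Eig.one α, by rw [one_mul, mul_one]⟩)
  · have h1 := hg B β ι hι h
    exact ⟨mobiusDisjoint_of h1, fun W _ γ κ hκ hγ => mobiusDisjoint_of (Good.embed h1 γ κ hκ hγ)⟩

theorem Generates.mono {A : Type} [CStarAlgebra A] {α : A →⋆ₐ[ℂ] A} {X Y : Set A} (hXY : X ⊆ Y)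
    (h : Generates α X) : Generates α Y := by
  rw [Generates, eq_top_iff, ← h]
  refine Submodule.topologicalClosure_mono (Submodule.span_mono ?_)
  rintro x ⟨y, hy, h⟩
  exact ⟨y, hXY hy, h⟩

theorem pow_ap {G : Type} [Group G] (σ : MulAut G) (m : ℕ) (x : G) : (σ ^ m) x = (σ^[m]) x := by
  induction m generalizing x with
  | zero => rfl
  | succ m ih => rw [pow_succ, MulAut.mul_apply, ih, Function.iterate_succ_apply]

theorem spectral {A G : Type} [CStarAlgebra A] [Group G] {u : G → A}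
    {σ : MulAut G} {α : A →⋆ₐ[ℂ] A} (hG : LocallyVirtuallySolvable σ) (hα : Covers u σ α)
    (hσ : ∀ N : Subgroup G, Group.IsSolvable N → QuasiUnipotentOn σ N)
    (hgen : Generates α (Set.range u)) : AllDisjoint α := by
  refine main α (hgen.mono ?_)
  rintro _ ⟨g, rfl⟩
  obtain ⟨N, hgN, hN, S, hS, hSs⟩ := hG g
  obtain ⟨m, hm, ⟨k, hk⟩, V, hVn, hV⟩ := tame_local' (σ := σ) hσ g N hgN hN hS hSs
  have hit : ∀ (n : ℕ) (x : G), ((σ ^ m : MulAut G)^[n]) x = (σ.toMonoidHom^[m * n]) x := by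
    intro n
    induction n with
    | zero => intro x; rfl
    | succ n ih =>
      intro x
      rw [Function.iterate_succ_apply, ih, pow_ap, mul_add, mul_one, Function.iterate_add_apply]
      rfl
  have hD : (fun h : G => h⁻¹ * (σ.toMonoidHom^[m]) h) = Dg (σ ^ m) := by
    funext h
    rw [Dg, pow_ap]
    rfl
  refine nilU_of_tame (σ := σ.toMonoidHom) hα.unit hα.mul hα.cov hm ⟨k, by rw [hD]; exact hk⟩
    ⟨V, hVn, fun n => ?_⟩
  have h3 := hV n
  rw [hit, ← hD] at h3
  exact h3

theorem zeroRankCP {A : Type} [CStarAlgebra A] {α : A →⋆ₐ[ℂ] A} (h : ZeroEntropy α) :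
    ZeroRankCP α := by
  obtain ⟨H, i1, i2, i3, π, hπ, h⟩ := h
  refine ⟨H, i1, i2, i3, π, hπ, fun Ω δ ε hδ hε => (h Ω δ ε hδ hε).mono fun n hn => ?_⟩
  obtain ⟨k, hk, φ, ψ, hφ, hψ, h⟩ := hn
  exact ⟨k, hk, φ, ψ, hφ.1, hψ.1, hψ.2, fun i hi a ha => h _ ⟨i, hi, a, ha, rfl⟩⟩

theorem zeroRank {A : Type} [CStarAlgebra A] {α : A →⋆ₐ[ℂ] A} (h : ZeroContractionEntropy α) :
    ZeroRank α := by
  obtain ⟨H, i1, i2, i3, π, hπ, h⟩ := h
  refine ⟨H, i1, i2, i3, π, hπ, fun Ω δ ε hδ hε => (h Ω δ ε hδ hε).mono fun n hn => ?_⟩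
  obtain ⟨k, hk, φ, ψ, hφ, hψ, h⟩ := hn
  exact ⟨k, hk, φ, ψ, hφ, hψ, fun i hi a ha => h _ ⟨i, hi, a, ha, rfl⟩⟩

/-- a set of elements whose span is dense generates -/
theorem generates_of_span {A : Type} [CStarAlgebra A] (α : A →⋆ₐ[ℂ] A) (Y : Set A)
    (h : (Submodule.span ℂ Y).topologicalClosure = ⊤) : Generates α Y := by
  rw [Generates, eq_top_iff, ← h]
  refine Submodule.topologicalClosure_mono (Submodule.span_mono fun y hy => ?_)
  exact ⟨y, hy, 1, 1, ⟨1, norm_one, by rw [map_one, one_smul]⟩,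
    ⟨1, norm_one, by rw [map_one, one_smul]⟩, by rw [one_mul, mul_one]⟩

theorem covers_of {A G : Type} [CStarAlgebra A] [Group G] {u : G → A} (hu : ∀ g, u g ∈ unitary A)
    (hmul : ∀ g h, ∃ z : ℂ, ‖z‖ = 1 ∧ u (g * h) = z • (u g * u h))
    {σ : MulAut G} {α : A →⋆ₐ[ℂ] A} (hα : Affine u σ α) : Covers u σ α := by
  have hc : ∀ c : ℂ, ‖c‖ = 1 → CentralUnitary (c • (1 : A)) ∧ α (c • (1 : A)) = c • (1 : A) := by
    intro c hc
    have h1 : star c * c = 1 := by
      rw [Complex.star_def, Complex.conj_mul', hc]; simp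
    refine ⟨⟨?_, fun a => by rw [smul_mul_assoc, mul_smul_comm, one_mul, mul_one]⟩,
      by rw [map_smul, map_one]⟩
    rw [Unitary.mem_iff]
    constructor
    · rw [star_smul, star_one, smul_mul_smul_comm, one_mul, h1, one_smul]
    · rw [star_smul, star_one, smul_mul_smul_comm, one_mul, mul_comm, h1, one_smul]
  refine ⟨hu, fun g h => ?_, fun g => ?_⟩
  · obtain ⟨z, hz, hzu⟩ := hmul g h
    exact ⟨z • 1, (hc z hz).1, (hc z hz).2, by rw [smul_mul_assoc, one_mul, hzu]⟩
  · obtain ⟨z, hz, hzu⟩ := hα g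
    exact ⟨z • 1, (hc z hz).1, (hc z hz).2, by rw [smul_mul_assoc, one_mul, hzu]⟩

theorem quo_of_zero {A G : Type} [CStarAlgebra A] [Group G] {u : G → A}
    (hu : TwistedGroupAlgebra u) {σ : MulAut G} {α : A →⋆ₐ[ℂ] A} (hα : Affine u σ α)
    (h : ZeroEntropy α) (N : Subgroup G) (hN : Group.IsSolvable N) : QuasiUnipotentOn σ N := by
  obtain ⟨τ, hτ, hτ1, hτu⟩ := hu.state
  intro hinv
  exact quo_of_no_indep N hinv fun g => no_indep_cp hu.unit hu.mul τ
    (ContinuousLinearMap.opNorm_le_bound _ zero_le_one fun x => by rw [one_mul]; exact hτ x) hτ1 hτu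
    hα (zeroRankCP h) N (Fol.of_solvable hN) g

theorem quo_of_contr {A G : Type} [CStarAlgebra A] [Group G] {u : G → A}
    (hu : GroupAlgebra u) {σ : MulAut G} {α : A →⋆ₐ[ℂ] A} (hα : Affine u σ α)
    (h : ZeroContractionEntropy α) (N : Subgroup G) : QuasiUnipotentOn σ N := by
  choose θ hθ hα using hα
  intro hinv
  exact quo_of_no_indep N hinv fun g =>
    no_indep hu.unit hu.universal hθ hα (zeroRank h) N g

/-- **Q1 for the twisted C*-algebras of virtually solvable groups.** Let `σ` be an automorphism of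
the group `G`, for example of a virtually solvable group, such that each element of `G` lies in a
`σ`-invariant virtually solvable subgroup (this is assumed in 1, 2 and 5).

1. Let `A` be a C*-algebra of `G` twisted by a scalar cocycle and `α` an endomorphism of `A` which
maps each `u g` to a scalar multiple of `u (σ g)`. If the Voiculescu-Brown entropy of `α` is zero,
then `α` is Möbius disjoint, and so are all systems which are generated by `α` over eigenvectors, and
their subsystems.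

2. For the full C*-algebra of `G` the same holds if the entropy defined with contractions is zero.

3, 4. For all groups `G`: under the assumptions of 1 or 2 on the entropy `σ` is quasi-unipotent on
the abelianizations of the invariant solvable subgroups, or of all invariant subgroups.

5. If `A` is any completion of a twisted group algebra of `G` (with a cocycle in the central unitaries
fixed by `α`, and generated over eigenvectors), then it is enough that `σ` is quasi-unipotent on the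
abelianizations of the invariant solvable subgroups. -/
theorem result (A G : Type) [CStarAlgebra A] [Group G] (u : G → A) (σ : MulAut G)
    (α : A →⋆ₐ[ℂ] A) :
    (LocallyVirtuallySolvable σ → TwistedGroupAlgebra u → Affine u σ α → ZeroEntropy α →
      AllDisjoint α) ∧
    (LocallyVirtuallySolvable σ → GroupAlgebra u → Affine u σ α → ZeroContractionEntropy α →
      AllDisjoint α) ∧
    (TwistedGroupAlgebra u → Affine u σ α → ZeroEntropy α →
      ∀ N : Subgroup G, Group.IsSolvable N → QuasiUnipotentOn σ N) ∧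
    (GroupAlgebra u → Affine u σ α → ZeroContractionEntropy α →
      ∀ N : Subgroup G, QuasiUnipotentOn σ N) ∧
    (LocallyVirtuallySolvable σ → Covers u σ α → Generates α (Set.range u) →
      (∀ N : Subgroup G, Group.IsSolvable N → QuasiUnipotentOn σ N) → AllDisjoint α) := by
  refine ⟨fun hG hu hα h => ?_, fun hG hu hα h => ?_, fun hu hα h N hN => ?_,
    fun hu hα h N => ?_, fun hG hα hgen hσ => spectral hG hα hσ hgen⟩
  · exact spectral hG (covers_of hu.unit hu.mul hα) (quo_of_zero hu hα h)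
      (generates_of_span α _ hu.dense)
  · exact spectral hG (covers_of hu.unit (fun g h => ⟨1, norm_one, by rw [one_smul, hu.mul]⟩) hα)
      (fun N _ => quo_of_contr hu hα h N) (generates_of_span α _ hu.dense)
  · exact quo_of_zero hu hα h N hN
  · exact quo_of_contr hu hα h N

end Pool.Agent.Results.MP_7a8f48_an.VirtuallySolvableGroups
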